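import Mathlib
import Pool.Agent.Y703.CT.StmB

/-!
# Project CT: the factorization of `D` in the Eisenstein integers (S_EXI, S_CNT)
-/

set_option autoImplicit false

open scoped Classical

namespace Pool.Agent.Y274.CT

open Pool.Agent.Y692.QS
open Pool.Agent.Y715.T.Rs Pool.Agent.Y715.T.Rec
open Pool.Agent.Y703.CT
open Pool.Agent.Y715.T.RecG (Pq)

/-! ### primes of the Eisenstein integers -/

theorem coprime_dvd {π : Ei} (hπ : Prime π) {a b : ℕ} (h : Nat.Coprime a b) (ha : π ∣ (a : Ei))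
    (hb : π ∣ (b : Ei)) : False := by
  obtain ⟨u, v, huv⟩ := Nat.isCoprime_iff_coprime.2 h
  have h2 : (u : Ei) * (a : Ei) + (v : Ei) * (b : Ei) = 1 := by
    have := congrArg (fun z : ℤ => (z : Ei)) huv
    push_cast at this
    exact this
  refine hπ.not_isUnit (isUnit_of_dvd_one ?_)
  rw [← h2]
  exact dvd_add (Dvd.dvd.mul_left ha _) (Dvd.dvd.mul_left hb _)

theorem eq_of_dvd {π ρ : Ei} (h : Pq π) (h' : Pq ρ) (hd : ρ ∣ π) : ρ = π := by
  obtain ⟨u, hu⟩ := (h'.prime.dvd_prime_iff_associated h.prime).1 hd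
  have h1 : ns π = ns ρ := by rw [← hu, ns_mul, ns_unit u.isUnit, mul_one]
  rw [ns_fix h.three, ns_fix h'.three] at h1
  exact h1.symm

theorem nr_three {ρ : Ei} (hρ : Prime ρ) (h3 : ¬ ρ ∣ 3) : ¬ (3 : ℤ) ∣ nr ρ := by
  have h1 := Pool.Agent.Y715.T.RecC.nr_nn hρ h3
  have h2 := nr_nonneg ρ
  omega

theorem assoc_ns {α : Ei} (h : ¬ (3 : ℤ) ∣ nr α) : Associated α (ns α) := by
  have h1 : IsUnit (star (ep α)) := IsUnit.of_mul_eq_one _ (ep_cases α h).2
  obtain ⟨u, hu⟩ := h1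
  refine ⟨u, ?_⟩
  unfold ns
  rw [hu, mul_comm]

theorem pq_ns {ρ : Ei} (hρ : Prime ρ) (h3 : ¬ ρ ∣ 3) : Pq (ns ρ) :=
  ⟨(assoc_ns (nr_three hρ h3)).prime hρ, ns_one (nr_three hρ h3)⟩

theorem not_dvd_star {π : Ei} {l : ℕ} (hl : l.Prime) (hl3 : l ≠ 3) (hn : nr π = l) :
    ¬ π ∣ star π := by
  rintro hd
  have h1 : π ∣ π - star π := dvd_sub (dvd_refl _) hd
  obtain ⟨x, hx⟩ := h1
  have h2 : nr (π - star π) = 3 * π.im ^ 2 := by
    unfold nr
    rw [QuadraticAlgebra.re_sub, QuadraticAlgebra.im_sub, star_re, star_im]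
    ring
  have h3 : (l : ℤ) ∣ 3 * π.im ^ 2 := by
    rw [← h2, hx, nr_mul, hn]
    exact dvd_mul_right _ _
  have hlp : Prime (l : ℤ) := Nat.prime_iff_prime_int.1 hl
  have h4 : (l : ℤ) ∣ π.im := by
    rcases hlp.dvd_or_dvd h3 with h | h
    · exfalso
      have h5 : l ∣ 3 := by exact_mod_cast h
      exact hl3 ((Nat.prime_dvd_prime_iff_eq hl Nat.prime_three).1 h5)
    · exact hlp.dvd_of_dvd_pow h
  obtain ⟨c, hc⟩ := h4
  have h5 : (l : ℤ) ∣ π.re ^ 2 := by
    refine ⟨1 + π.re * c - l * c ^ 2, ?_⟩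
    unfold nr at hn
    rw [hc] at hn
    linear_combination hn
  obtain ⟨d, hd'⟩ := hlp.dvd_of_dvd_pow h5
  have h6 : (l : ℤ) * (l * (d ^ 2 - d * c + c ^ 2)) = l * 1 := by
    unfold nr at hn
    rw [hc, hd'] at hn
    linear_combination hn
  have h7 := mul_left_cancel₀ hlp.ne_zero h6
  exact hlp.not_isUnit (IsUnit.of_mul_eq_one _ h7)

theorem nr_ne_two {π : Ei} {p : ℕ} (h : p % 3 = 2) : nr π ≠ p := by
  intro hn
  have h1 := nr_mod π
  rw [hn] at h1
  have h2 : ((p : ℤ) : ZMod 3) = 2 := by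
    have h3 : ((p : ℕ) : ZMod 3) = ((p % 3 : ℕ) : ZMod 3) := (ZMod.natCast_mod p 3).symm
    rw [Int.cast_natCast, h3, h]
    rfl
  rw [h2] at h1
  generalize ((π.re : ℤ) : ZMod 3) = x at h1
  generalize ((π.im : ℤ) : ZMod 3) = y at h1
  revert x y
  decide

theorem nat_prime_of {π : Ei} {l : ℕ} (hd : π ∣ (l : Ei)) (hl : l ≠ 0)
    (hn : nr π = (l : ℤ) ^ 2) : Associated π (l : Ei) := by
  obtain ⟨x, hx⟩ := hd
  have h1 : nr x = 1 := by
    have h2 := congrArg nr hx
    rw [nr_nat, nr_mul, hn] at h2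
    have h3 : (l : ℤ) ^ 2 ≠ 0 := pow_ne_zero _ (by exact_mod_cast hl)
    exact mul_left_cancel₀ h3 (by rw [← h2, mul_one])
  obtain ⟨u, hu⟩ := isUnit_iff.2 h1
  exact ⟨u, by rw [hu]; exact hx.symm⟩

theorem exists_over {p : ℕ} (hp : p.Prime) :
    ∃ π : Ei, Prime π ∧ π ∣ (p : Ei) ∧ (nr π = p ∨ nr π = (p : ℤ) ^ 2) := by
  have h0 : (p : Ei) ≠ 0 := by
    intro h
    have h1 := congrArg nr h
    rw [nr_nat] at h1
    have h2 : nr (0 : Ei) = 0 := nr_zero_iff.2 rfl
    rw [h2] at h1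
    exact hp.ne_zero (by exact_mod_cast pow_eq_zero_iff (two_ne_zero) |>.1 h1)
  have h1 : ¬ IsUnit (p : Ei) := by
    intro h
    have h2 := isUnit_iff.1 h
    rw [nr_nat] at h2
    have h3 := hp.two_le
    have h4 : (2 : ℤ) ≤ p := by exact_mod_cast h3
    nlinarith
  obtain ⟨π, hπ, hd⟩ := WfDvdMonoid.exists_irreducible_factor h1 h0
  have hπ' : Prime π := hπ.prime
  refine ⟨π, hπ', hd, ?_⟩
  obtain ⟨l, hl, hdl, hn⟩ := exists_p hπ'
  have : l = p := by
    by_contra hne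
    exact coprime_dvd hπ' ((Nat.coprime_primes hl hp).2 hne) hdl hd
  subst this
  exact hn

theorem prime_two {p : ℕ} (hp : p.Prime) (h : p % 3 = 2) : Prime (p : Ei) := by
  obtain ⟨π, hπ, hd, hn | hn⟩ := exists_over hp
  · exact absurd hn (nr_ne_two h)
  · exact (nat_prime_of hd hp.ne_zero hn).prime hπ

theorem exists_one {p : ℕ} (hp : p.Prime) (h3 : p % 3 = 1) : ∃ π : Ei, Prime π ∧ nr π = p := by
  have : Fact p.Prime := ⟨hp⟩
  obtain ⟨π, hπ, hd, hn | hn⟩ := exists_over hp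
  · exact ⟨π, hπ, hn⟩
  exfalso
  have hP : Prime (p : Ei) := (nat_prime_of hd hp.ne_zero hn).prime hπ
  obtain ⟨z, hz⟩ : ∃ z : ZMod p, z ^ 2 + z + 1 = 0 := by
    have hcyc : IsCyclic (ZMod p)ˣ := inferInstance
    obtain ⟨g, hg⟩ := hcyc.exists_generator
    have ho : orderOf g = p - 1 := by
      rw [orderOf_eq_card_of_forall_mem_zpowers hg, Nat.card_eq_fintype_card, ZMod.card_units]
    have hp2 := hp.two_le
    have hne : g ^ ((p - 1) / 3) ≠ 1 := by
      intro h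
      have h4 := orderOf_dvd_of_pow_eq_one h
      rw [ho] at h4
      have h6 := Nat.le_of_dvd (by omega) h4
      omega
    have hc : (g ^ ((p - 1) / 3)) ^ 3 = 1 := by
      rw [← pow_mul]
      have : (p - 1) / 3 * 3 = p - 1 := by omega
      rw [this, ← ho, pow_orderOf_eq_one]
    refine ⟨((g ^ ((p - 1) / 3) : (ZMod p)ˣ) : ZMod p), ?_⟩
    set y : ZMod p := ((g ^ ((p - 1) / 3) : (ZMod p)ˣ) : ZMod p) with hy
    have h1 : y ^ 3 = 1 := by
      rw [hy, ← Units.val_pow_eq_pow_val, hc, Units.val_one]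
    have h2 : y - 1 ≠ 0 := by
      intro h
      apply hne
      apply Units.ext
      rw [Units.val_one]
      exact sub_eq_zero.1 h
    apply mul_left_cancel₀ h2
    linear_combination h1
  obtain ⟨n, hn'⟩ := ZMod.intCast_surjective z
  have hdvd : (p : ℤ) ∣ n ^ 2 + n + 1 := by
    rw [← ZMod.intCast_zmod_eq_zero_iff_dvd]
    push_cast
    rw [hn']
    exact hz
  have h5 : (p : Ei) ∣ ((n : Ei) - w) * ((n : Ei) + 1 + w) := by
    obtain ⟨c, hc⟩ := hdvd
    refine ⟨(c : Ei), ?_⟩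
    have h6 : ((n ^ 2 + n + 1 : ℤ) : Ei) = ((p * c : ℤ) : Ei) := by rw [hc]
    push_cast at h6
    have h7 : w * w = -1 - w := w_sq
    linear_combination h6 - h7
  have h8 : ∀ x : Ei, (p : Ei) ∣ x → (p : ℤ) ∣ x.im := by
    intro x hx
    have : (((p : ℤ) : Ei)) ∣ x := by exact_mod_cast hx
    exact (int_dvd.1 this).2
  have hp1 : ¬ (p : ℤ) ∣ 1 := by
    intro h
    have h9 : p ∣ 1 := by exact_mod_cast h
    exact hp.one_lt.ne' (Nat.dvd_one.1 h9)
  rcases hP.dvd_or_dvd h5 with h | h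
  · have h9 := h8 _ h
    rw [QuadraticAlgebra.im_sub, w_im, QuadraticAlgebra.im_intCast, zero_sub, dvd_neg] at h9
    exact hp1 h9
  · have h9 := h8 _ h
    rw [QuadraticAlgebra.im_add, QuadraticAlgebra.im_add, w_im, QuadraticAlgebra.im_intCast,
      QuadraticAlgebra.im_one, zero_add, zero_add] at h9
    exact hp1 h9

theorem not_three {D : ℕ} (hD : ¬ 3 ∣ D) {π : Ei} (hπ : Prime π) (hd : π ∣ (D : Ei)) :
    ¬ π ∣ 3 := by
  intro h
  have h1 : Nat.Coprime 3 D := (Nat.Prime.coprime_iff_not_dvd Nat.prime_three).2 hD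
  exact coprime_dvd hπ h1 (by exact_mod_cast h) hd

theorem not_cube {D : ℕ} (hD : Base D) {π : Ei} (hπ : Prime π) : ¬ π ^ 3 ∣ (D : Ei) := by
  intro h
  obtain ⟨hD0, hD3, hcf⟩ := hD
  have hdD : π ∣ (D : Ei) := dvd_trans (dvd_pow_self π (by norm_num)) h
  have h3 := not_three hD3 hπ hdD
  obtain ⟨l, hl, hd, hn⟩ := exists_p hπ
  have hl3 : l ≠ 3 := by
    rintro rfl
    exact h3 (by exact_mod_cast hd)
  obtain ⟨a, m, hm, hDm⟩ := Nat.exists_eq_pow_mul_and_not_dvd hD0 l hl.ne_one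
  have ha : a ≤ 2 := by
    by_contra hcon
    apply hcf l hl
    rw [hDm]
    exact Dvd.dvd.mul_right (pow_dvd_pow l (by omega)) _
  have hπm : ¬ π ∣ (m : Ei) := fun h1 =>
    coprime_dvd hπ ((Nat.Prime.coprime_iff_not_dvd hl).2 hm) hd h1
  have h1 : π ^ 3 ∣ (l : Ei) ^ a := by
    rw [hDm] at h
    push_cast at h
    exact hπ.pow_dvd_of_dvd_mul_right 3 hπm h
  have h2 : π ^ 3 ∣ (l : Ei) ^ 2 := dvd_trans h1 (pow_dvd_pow _ ha)
  have hπ2 : π ^ 2 ≠ 0 := pow_ne_zero _ hπ.ne_zero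
  rcases hn with hn | hn
  · have h4 : (l : Ei) = π * star π := by
      rw [mul_star, hn]
      push_cast
      rfl
    rw [h4, mul_pow, pow_succ π 2, mul_dvd_mul_iff_left hπ2] at h2
    exact not_dvd_star hl hl3 hn (hπ.dvd_of_dvd_pow h2)
  · obtain ⟨u, hu⟩ := nat_prime_of hd hl.ne_zero hn
    rw [← hu, mul_pow, pow_succ π 2, mul_dvd_mul_iff_left hπ2] at h2
    exact hπ.not_isUnit (isUnit_of_dvd_unit h2 (u.isUnit.pow 2))

/-! ### the factorization -/

/-- the normalization as a homomorphism -/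
noncomputable def nsH : Ei →* Ei where
  toFun := ns
  map_one' := ns_unit isUnit_one
  map_mul' := ns_mul

theorem ns_nat {D : ℕ} (hD : ¬ 3 ∣ D) : ns (D : Ei) = D ∨ ns (D : Ei) = -D := by
  have h1 : ep (D : Ei) = 1 ∨ ep (D : Ei) = -1 := by
    unfold ep
    have e1 : (((D : Ei).re : ℤ) : ZMod 3) = (D : ZMod 3) := by
      rw [QuadraticAlgebra.re_natCast]
      push_cast
      rfl
    have e2 : (((D : Ei).im : ℤ) : ZMod 3) = 0 := by
      rw [QuadraticAlgebra.im_natCast]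
      rfl
    rw [e1, e2]
    have h2 : (D : ZMod 3) ≠ 0 := by
      intro h
      exact hD ((ZMod.natCast_eq_zero_iff D 3).1 h)
    generalize (D : ZMod 3) = x at h2
    revert x
    decide
  unfold ns
  rcases h1 with h | h
  · left
    rw [h, star_one, one_mul]
  · right
    rw [h, star_neg, star_one, neg_one_mul]

theorem t_exi : S_EXI := by
  intro D hD
  have hD0 : (D : Ei) ≠ 0 := by
    intro h
    have h1 := congrArg nr h
    rw [nr_nat] at h1
    have h2 : nr (0 : Ei) = 0 := nr_zero_iff.2 rfl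
    rw [h2] at h1
    exact hD.1 (by exact_mod_cast pow_eq_zero_iff (two_ne_zero) |>.1 h1)
  set M : Multiset Ei := UniqueFactorizationMonoid.factors (D : Ei) with hM
  have hprod : Associated M.prod (D : Ei) := UniqueFactorizationMonoid.factors_prod hD0
  have hMp : ∀ ρ ∈ M, Prime ρ ∧ ρ ∣ (D : Ei) := fun ρ hρ =>
    ⟨UniqueFactorizationMonoid.prime_of_factor ρ hρ,
      UniqueFactorizationMonoid.dvd_of_mem_factors hρ⟩
  set M' : Multiset Ei := M.map nsH with hM'
  have hM'p : ∀ ρ ∈ M', Pq ρ := by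
    intro ρ hρ
    obtain ⟨σ, hσ, rfl⟩ := Multiset.mem_map.1 hρ
    obtain ⟨h1, h2⟩ := hMp σ hσ
    exact pq_ns h1 (not_three hD.2.1 h1 h2)
  have hM'prod : M'.prod = ns (D : Ei) := by
    rw [hM', ← map_multiset_prod]
    obtain ⟨u, hu⟩ := hprod
    rw [← hu, ns_mul, ns_unit u.isUnit, mul_one]
    rfl
  have hdD : ∀ x : Ei, x ∣ M'.prod → x ∣ (D : Ei) := by
    intro x hx
    rw [hM'prod] at hx
    rcases ns_nat hD.2.1 with h | h
    · rwa [h] at hx
    · rw [h] at hx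
      exact (dvd_neg).1 hx
  have hcount : ∀ a ∈ M', M'.count a < 3 := by
    intro a ha
    by_contra hcon
    have h1 : a ^ 3 ∣ M'.prod := by
      rw [Finset.prod_multiset_count]
      refine dvd_trans (pow_dvd_pow a (not_lt.1 hcon)) ?_
      exact Finset.dvd_prod_of_mem (fun a => a ^ M'.count a) (Multiset.mem_toFinset.2 ha)
    exact not_cube hD (hM'p a ha).prime (hdD _ h1)
  set S := M'.toFinset with hS
  let E := S.equivFin
  have hmem : ∀ i, ((E.symm i : S) : Ei) ∈ M' := fun i =>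
    Multiset.mem_toFinset.1 (E.symm i).2
  have hval : ∀ i, ((M'.count ((E.symm i : S) : Ei) : ℕ) : ZMod 3).val =
      M'.count ((E.symm i : S) : Ei) := fun i =>
    ZMod.val_cast_of_lt (hcount _ (hmem i))
  refine ⟨S.card, fun i => ((E.symm i : S) : Ei), fun i => ((M'.count ((E.symm i : S) : Ei) : ℕ) :
    ZMod 3), ⟨fun j => hM'p _ (hmem j), fun i j hij hd => ?_, fun j h0 => ?_⟩, ?_⟩
  · apply hij
    have h1 := eq_of_dvd (hM'p _ (hmem i)) (hM'p _ (hmem j)) hd
    exact (E.symm.injective (Subtype.ext h1)).symm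
  · have h1 := hval j
    rw [h0, ZMod.val_zero] at h1
    exact absurd h1.symm (Multiset.count_pos.2 (hmem j)).ne'
  · have h1 : pD (fun i => ((E.symm i : S) : Ei))
        (fun i => ((M'.count ((E.symm i : S) : Ei) : ℕ) : ZMod 3)) = M'.prod := by
      have h2 : ∏ m ∈ S, m ^ M'.count m =
          ∏ i, ((E.symm i : S) : Ei) ^ M'.count ((E.symm i : S) : Ei) := by
        rw [← Finset.prod_coe_sort]
        exact (Equiv.prod_comp E.symm (fun a : S => (a : Ei) ^ M'.count (a : Ei))).symm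
      unfold pD
      rw [Finset.prod_multiset_count, ← hS, h2]
      exact Finset.prod_congr rfl fun i _ => by rw [hval i]
    rw [h1, hM'prod]
    rcases ns_nat hD.2.1 with h | h
    · left
      exact h.symm
    · right
      rw [h, neg_neg]

/-! ### the number of the primes -/

theorem t_cnt : S_CNT := by
  intro D hD J _ π e hdt hDp
  obtain ⟨hB, -, -, q, hq, hq3, hqD, hqu⟩ := hD
  have hD0 := hB.1
  -- divisors of D
  have hpD : ∀ x : Ei, x ∣ (D : Ei) ↔ x ∣ pD π e := by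
    intro x
    rcases hDp with h | h
    · rw [h]
    · rw [h, dvd_neg]
  have hπD : ∀ j, π j ∣ (D : Ei) := by
    intro j
    rw [hpD]
    refine dvd_trans (dvd_pow_self (π j) ?_) (Finset.dvd_prod_of_mem _ (Finset.mem_univ j))
    intro h
    exact hdt.e0 j ((ZMod.val_eq_zero _).1 h)
  have hex : ∀ ρ : Ei, Pq ρ → ρ ∣ (D : Ei) → ∃ j, π j = ρ := by
    intro ρ hρ hd
    rw [hpD] at hd
    obtain ⟨j, -, hj⟩ := (hρ.prime.dvd_finsetProd_iff _).1 hd
    exact ⟨j, (eq_of_dvd (hdt.pq j) hρ (hρ.prime.dvd_of_dvd_pow hj)).symm⟩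
  have hinj : ∀ i j, π i = π j → i = j := by
    intro i j h
    by_contra hne
    exact hdt.nd i j hne (by rw [h])
  choose f hf1 hf2 hf3 using fun j => exists_p (hdt.pq j).prime
  have hfD : ∀ j, f j ∣ D := by
    intro j
    by_contra hcon
    exact coprime_dvd (hdt.pq j).prime ((Nat.Prime.coprime_iff_not_dvd (hf1 j)).2 hcon) (hf2 j)
      (hπD j)
  have hfiff : ∀ j (p : ℕ), p.Prime → (f j = p ↔ π j ∣ (p : Ei)) := by
    intro j p hp
    constructor
    · rintro rfl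
      exact hf2 j
    · intro h
      by_contra hne
      exact coprime_dvd (hdt.pq j).prime ((Nat.coprime_primes (hf1 j) hp).2 hne) (hf2 j) h
  have hmaps : ∀ j ∈ (Finset.univ : Finset J), f j ∈ D.primeFactors := fun j _ =>
    Nat.mem_primeFactors.2 ⟨hf1 j, hfD j, hD0⟩
  have hcard := Finset.card_eq_sum_card_fiberwise hmaps
  have hn3 : ∀ p : ℕ, p ∣ D → p ≠ 3 := by
    rintro p hp rfl
    exact hB.2.1 hp
  have hq1 : (Finset.univ.filter fun j => f j = q).card = 1 := by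
    have hP := prime_two hq hq3
    have hP3 : ¬ (q : Ei) ∣ 3 := not_three hB.2.1 hP (by
      obtain ⟨c, hc⟩ := hqD
      exact ⟨(c : Ei), by rw [hc]; push_cast; rfl⟩)
    have hρ := pq_ns hP hP3
    have has := assoc_ns (nr_three hP hP3)
    obtain ⟨i, hi⟩ := hex _ hρ (has.dvd_iff_dvd_left.1 (by
      obtain ⟨c, hc⟩ := hqD
      exact ⟨(c : Ei), by rw [hc]; push_cast; rfl⟩))
    rw [Finset.card_eq_one]
    refine ⟨i, ?_⟩
    ext j
    rw [Finset.mem_filter, Finset.mem_singleton, hfiff j q hq]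
    constructor
    · rintro ⟨-, h⟩
      apply hinj
      rw [hi]
      exact eq_of_dvd hρ (hdt.pq j) (has.dvd_iff_dvd_right.1 h)
    · rintro rfl
      refine ⟨Finset.mem_univ _, ?_⟩
      rw [hi]
      exact has.symm.dvd
  have hp2 : ∀ p ∈ D.primeFactors.erase q, (Finset.univ.filter fun j => f j = p).card = 2 := by
    intro p hp
    rw [Finset.mem_erase, Nat.mem_primeFactors] at hp
    obtain ⟨hpq, hpp, hpd, -⟩ := hp
    have hp1 := hqu p hpp hpd hpq
    have hpD' : (p : Ei) ∣ (D : Ei) := by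
      obtain ⟨c, hc⟩ := hpd
      exact ⟨(c : Ei), by rw [hc]; push_cast; rfl⟩
    obtain ⟨σ, hσ, hσn⟩ := exists_one hpp hp1
    have hσp : (p : Ei) = σ * star σ := by
      rw [mul_star, hσn]
      push_cast
      rfl
    have hσ3 : ¬ σ ∣ 3 := not_three hB.2.1 hσ (dvd_trans ⟨star σ, hσp⟩ hpD')
    have hρ := pq_ns hσ hσ3
    set ρ := ns σ with hρd
    have hρn : nr ρ = p := by rw [hρd, nr_ns (nr_three hσ hσ3), hσn]
    have hρp : (p : Ei) = ρ * star ρ := by
      rw [mul_star, hρn]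
      push_cast
      rfl
    have hρs : Pq (star ρ) := by
      refine ⟨Pool.Agent.Y715.T.RecC.star_prime hρ.prime, ?_⟩
      have h1 := Pool.Agent.Y715.T.RecC.star_dvd hρ.three
      rw [star_sub, star_one] at h1
      have h2 : star (3 : Ei) = 3 := by decide
      rwa [h2] at h1
    have hne : ¬ ρ ∣ star ρ := not_dvd_star hpp (hn3 p hpd) hρn
    obtain ⟨i, hi⟩ := hex ρ hρ (dvd_trans ⟨star ρ, hρp⟩ hpD')
    obtain ⟨i', hi'⟩ := hex (star ρ) hρs (dvd_trans ⟨ρ, by rw [hρp, mul_comm]⟩ hpD')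
    rw [Finset.card_eq_two]
    refine ⟨i, i', ?_, ?_⟩
    · rintro rfl
      apply hne
      have h1 : star ρ = ρ := by
        rw [← hi']
        exact hi
      rw [h1]
    · ext j
      rw [Finset.mem_filter, Finset.mem_insert, Finset.mem_singleton, hfiff j p hpp]
      constructor
      · rintro ⟨-, h⟩
        rw [hρp] at h
        rcases (hdt.pq j).prime.dvd_or_dvd h with h | h
        · left
          apply hinj
          rw [hi]
          exact eq_of_dvd hρ (hdt.pq j) h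
        · right
          apply hinj
          rw [hi']
          exact eq_of_dvd hρs (hdt.pq j) h
      · rintro (rfl | rfl)
        · refine ⟨Finset.mem_univ _, ?_⟩
          rw [hi, hρp]
          exact dvd_mul_right _ _
        · refine ⟨Finset.mem_univ _, ?_⟩
          rw [hi', hρp]
          exact dvd_mul_left _ _
  have hqm : q ∈ D.primeFactors := Nat.mem_primeFactors.2 ⟨hq, hqD, hD0⟩
  rw [Finset.card_univ, ← Finset.add_sum_erase _ _ hqm, hq1, Finset.sum_congr rfl hp2,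
    Finset.sum_const, Finset.card_erase_of_mem hqm, smul_eq_mul] at hcard
  have hpos := Finset.card_pos.2 ⟨q, hqm⟩
  rw [hcard]
  omega

end Pool.Agent.Y274.CT
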